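import Pool.Agent.Lib.Helper13.AbSq

/-!
MP_385527_co: the maximum number `XNL(n)` of non-equivalent abelian squares in a binary word of
length `n` is at least `c * n ^ β` with `β = log 162 / log 27 = 1.543...`.
-/

set_option autoImplicit false

namespace Pool.Agent.Results.MP_385527_co.SquaresExponent

/-- The Parikh vector of a binary word (letters `a = true`, `b = false`): the numbers of
occurrences of the two letters. -/
def parikh (x : List Bool) : ℕ × ℕ := (x.count true, x.count false)

/-- The equivalence classes of the abelian squares in `w`, each given by the common Parikh vector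
of its two halves: all `P(u)` such that `u v` is a factor of `w` with `u` nonempty and
`P(u) = P(v)`. -/
def squareClasses (w : List Bool) : Set (ℕ × ℕ) :=
  {p | ∃ u v : List Bool, u ≠ [] ∧ (u ++ v) <:+: w ∧ parikh u = p ∧ parikh v = p}

/-- `XNL(n)`: the maximum, over the binary words of length `n`, of the number of classes of
abelian squares (the supremum is a maximum: see `xnl_attained`). -/
noncomputable def XNL (n : ℕ) : ℕ :=
  sSup {k : ℕ | ∃ w : List Bool, w.length = n ∧ (squareClasses w).ncard = k}

theorem squareClasses_subset (w : List Bool) :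
    squareClasses w ⊆ Set.Icc (0, 0) (w.length, w.length) := by
  rintro p ⟨u, v, -, hf, rfl, -⟩
  have h1 : (u ++ v).length ≤ w.length := hf.length_le
  rw [List.length_append] at h1
  have h2 : u.count true ≤ u.length := List.count_le_length
  have h3 : u.count false ≤ u.length := List.count_le_length
  refine ⟨⟨Nat.zero_le _, Nat.zero_le _⟩, ⟨?_, ?_⟩⟩
  · show u.count true ≤ w.length
    omega
  · show u.count false ≤ w.length
    omega

theorem squareClasses_finite (w : List Bool) : (squareClasses w).Finite :=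
  (Set.finite_Icc _ _).subset (squareClasses_subset w)

theorem bddAbove (n : ℕ) :
    BddAbove {k : ℕ | ∃ w : List Bool, w.length = n ∧ (squareClasses w).ncard = k} := by
  refine ⟨(Set.Icc ((0, 0) : ℕ × ℕ) (n, n)).ncard, ?_⟩
  rintro k ⟨w, rfl, rfl⟩
  exact Set.ncard_le_ncard (squareClasses_subset w) (Set.finite_Icc _ _)

theorem xnl_attained (n : ℕ) : ∃ w : List Bool, w.length = n ∧ (squareClasses w).ncard = XNL n :=
  Nat.sSup_mem (s := {k : ℕ | ∃ w : List Bool, w.length = n ∧ (squareClasses w).ncard = k})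
    ⟨(squareClasses (List.replicate n true)).ncard, List.replicate n true, by simp, rfl⟩
    (bddAbove n)

theorem le_XNL (w : List Bool) : (squareClasses w).ncard ≤ XNL w.length :=
  le_csSup (bddAbove _) ⟨w, rfl, rfl⟩

theorem XNL_mono {m n : ℕ} (h : m ≤ n) : XNL m ≤ XNL n := by
  obtain ⟨w, hw, hk⟩ := xnl_attained m
  rw [← hk]
  have h1 : squareClasses w ⊆ squareClasses (w ++ List.replicate (n - m) true) := by
    rintro p ⟨u, v, hu, hf, h1, h2⟩
    exact ⟨u, v, hu, hf.trans (List.infix_append' [] w _), h1, h2⟩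
  refine (Set.ncard_le_ncard h1 (squareClasses_finite _)).trans ?_
  have h2 := le_XNL (w ++ List.replicate (n - m) true)
  rwa [List.length_append, List.length_replicate, hw, Nat.add_sub_cancel' h] at h2

theorem count_factor (w : List Bool) (i : ℕ) : ∀ k, i + k ≤ w.length →
    ((w.drop i).take k).count true
      = ((Finset.Ico i (i + k)).filter (fun j => w.getD j false = true)).card := by
  intro k
  induction k with
  | zero => intro _; simp
  | succ k ih =>
    intro h
    have hlt : i + k < w.length := by omega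
    have hlt' : k < (w.drop i).length := by rw [List.length_drop]; omega
    rw [List.take_succ_eq_append_getElem hlt', List.count_append, ih (by omega)]
    have e1 : (w.drop i)[k] = w[i + k] := by simp
    have e2 : w.getD (i + k) false = w[i + k] := by simp [hlt]
    rw [e1, ← e2, ← add_assoc, ← Finset.insert_Ico_right_eq_Ico_add_one (by omega),
      Finset.filter_insert]
    by_cases hv : w.getD (i + k) false = true
    · rw [if_pos hv, Finset.card_insert_of_notMem (by simp), hv]
      simp
    · rw [if_neg hv, Bool.eq_false_iff.mpr hv]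
      simp

theorem length_factor (w : List Bool) (i k : ℕ) (h : i + k ≤ w.length) :
    ((w.drop i).take k).length = k := by
  rw [List.length_take, List.length_drop]; omega

/-- the classes given by positions are classes in the sense of `squareClasses` -/
theorem positions_le (w : List Bool) :
    Set.ncard {p : ℕ × ℕ | ∃ i : ℕ, 1 ≤ p.1 ∧ i + 2 * p.1 ≤ w.length ∧
          ((Finset.Ico i (i + p.1)).filter (fun j => w.getD j false = true)).card = p.2 ∧
          ((Finset.Ico (i + p.1) (i + 2 * p.1)).filter
            (fun j => w.getD j false = true)).card = p.2}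
      ≤ (squareClasses w).ncard := by
  refine Set.ncard_le_ncard_of_injOn (fun p => (p.2, p.1 - p.2)) ?_ ?_ (squareClasses_finite w)
  · rintro ⟨k, t⟩ ⟨i, h1, h2, h3, h4⟩
    simp only at h1 h2 h3 h4
    have e3 : ((w.drop i).take k).count true = t := by
      rw [count_factor w i k (by omega)]; exact h3
    have e4 : ((w.drop (i + k)).take k).count true = t := by
      rw [count_factor w (i + k) k (by omega), show i + k + k = i + 2 * k by ring]; exact h4
    have l3 := length_factor w i k (by omega)
    have l4 := length_factor w (i + k) k (by omega)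
    have c3 := List.count_true_add_count_false ((w.drop i).take k)
    have c4 := List.count_true_add_count_false ((w.drop (i + k)).take k)
    refine ⟨(w.drop i).take k, (w.drop (i + k)).take k, ?_, ?_, ?_, ?_⟩
    · intro h
      rw [h] at l3
      simp at l3
      omega
    · refine ⟨w.take i, w.drop (i + k + k), ?_⟩
      have h1 : (w.drop (i + k)).take k ++ w.drop (i + k + k) = w.drop (i + k) := by
        have h := List.take_append_drop k (w.drop (i + k))
        rwa [List.drop_drop] at h
      have h2 : (w.drop i).take k ++ w.drop (i + k) = w.drop i := by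
        have h := List.take_append_drop k (w.drop i)
        rwa [List.drop_drop] at h
      rw [List.append_assoc, List.append_assoc, h1, h2, List.take_append_drop]
    · show ((((w.drop i).take k).count true, ((w.drop i).take k).count false) : ℕ × ℕ)
        = (t, k - t)
      rw [e3, Prod.mk.injEq]
      exact ⟨rfl, by omega⟩
    · show ((((w.drop (i + k)).take k).count true,
        ((w.drop (i + k)).take k).count false) : ℕ × ℕ) = (t, k - t)
      rw [e4, Prod.mk.injEq]
      exact ⟨rfl, by omega⟩
  · rintro ⟨k, t⟩ ⟨i, h1, h2, h3, -⟩ ⟨k', t'⟩ ⟨i', h1', h2', h3', -⟩ h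
    simp only [Prod.mk.injEq] at h1 h2 h3 h1' h2' h3' h
    have a1 : t ≤ k := by
      rw [← h3]
      refine (Finset.card_filter_le _ _).trans ?_
      rw [Nat.card_Ico]; omega
    have a2 : t' ≤ k' := by
      rw [← h3']
      refine (Finset.card_filter_le _ _).trans ?_
      rw [Nat.card_Ico]; omega
    rw [Prod.mk.injEq]
    exact ⟨by omega, h.1⟩

/-- `XNL(n) ≥ 4 · 162 ^ d` for `n ≥ 160 · 27 ^ d`. -/
theorem XNL_ge (d n : ℕ) (h : 160 * 27 ^ d ≤ n) : 4 * 162 ^ d ≤ XNL n := by
  have hm : 80 * (3 ^ d) ^ 3 ≤ 80 * 27 ^ d := by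
    rw [← pow_mul, mul_comm d 3, pow_mul]
    norm_num
  obtain ⟨w, hlen, hcard⟩ := AbSq.main d (80 * 27 ^ d) hm
  have h1 : 6 ^ d * (3 ^ d * (4 * (3 ^ d) ^ 2)) = 4 * 162 ^ d := by
    have h2 : ((3 : ℕ) ^ d) ^ 2 = 9 ^ d := by
      rw [← pow_mul, mul_comm d 2, pow_mul]; norm_num
    rw [h2, show (162 : ℕ) = 6 * (3 * 9) by norm_num, mul_pow, mul_pow]
    ring
  rw [h1] at hcard
  calc 4 * 162 ^ d ≤ (squareClasses w).ncard := hcard.trans (positions_le w)
    _ ≤ XNL w.length := le_XNL w
    _ ≤ XNL n := XNL_mono (by rw [hlen]; omega)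

theorem one_le_XNL {n : ℕ} (hn : 2 ≤ n) : 1 ≤ XNL n := by
  refine le_trans ?_ (XNL_mono hn)
  refine le_trans ?_ (le_XNL [true, true])
  rw [Nat.one_le_iff_ne_zero, Ne, Set.ncard_eq_zero (squareClasses_finite _)]
  intro h
  have h1 : ((1, 0) : ℕ × ℕ) ∈ squareClasses [true, true] :=
    ⟨[true], [true], by simp, List.infix_refl _, rfl, rfl⟩
  rw [h] at h1
  exact h1

/-- The exponent `log 162 / log 27 = 1.543...` is larger than `3 / 2`, and for some `c > 0` we have
`XNL(n) ≥ c * n ^ (log 162 / log 27)` for all `n ≥ 2`. -/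
theorem result :
    3 / 2 < Real.log 162 / Real.log 27 ∧
    ∃ c : ℝ, 0 < c ∧ ∀ n : ℕ, 2 ≤ n →
      c * (n : ℝ) ^ (Real.log 162 / Real.log 27) ≤ (XNL n : ℝ) := by
  have h27 : 0 < Real.log 27 := Real.log_pos (by norm_num)
  set β : ℝ := Real.log 162 / Real.log 27 with hβ
  have hβ0 : 3 / 2 < β := by
    rw [hβ, div_lt_div_iff₀ (by norm_num) h27]
    have h1 : 3 * Real.log 27 = Real.log (27 ^ 3) := by rw [Real.log_pow]; norm_num
    have h2 : Real.log 162 * 2 = Real.log (162 ^ 2) := by rw [Real.log_pow]; push_cast; ring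
    rw [h1, h2]
    exact Real.log_lt_log (by norm_num) (by norm_num)
  have hpow : (27 : ℝ) ^ β = 162 := by
    rw [Real.rpow_def_of_pos (by norm_num), hβ, mul_div_cancel₀ _ h27.ne',
      Real.exp_log (by norm_num)]
  have hK : (0 : ℝ) < 4320 ^ β := Real.rpow_pos_of_pos (by norm_num) _
  have hnonneg : 0 ≤ β := by linarith
  refine ⟨hβ0, 1 / 4320 ^ β, by positivity, ?_⟩
  intro n hn
  rw [div_mul_eq_mul_div, one_mul, div_le_iff₀ hK]
  by_cases hs : n < 160
  · have h1 : (n : ℝ) ^ β ≤ 4320 ^ β :=
      Real.rpow_le_rpow (by positivity) (by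
        have : (n : ℝ) < 160 := by exact_mod_cast hs
        linarith) hnonneg
    have h2 : (1 : ℝ) ≤ XNL n := by exact_mod_cast one_le_XNL hn
    calc (n : ℝ) ^ β ≤ 1 * 4320 ^ β := by rw [one_mul]; exact h1
      _ ≤ XNL n * 4320 ^ β := mul_le_mul_of_nonneg_right h2 hK.le
  · -- the largest `d` with `160 * 27 ^ d ≤ n`
    have hex : ∃ d : ℕ, 160 * 27 ^ d ≤ n ∧ n < 160 * 27 ^ (d + 1) := by
      have h0 : 160 * 27 ^ 0 ≤ n := by omega
      obtain ⟨D, hD⟩ := pow_unbounded_of_one_lt (n : ℕ) (show (1 : ℕ) < 27 by norm_num)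
      have hD' : ¬ 160 * 27 ^ D ≤ n := by
        have : 27 ^ D ≤ 160 * 27 ^ D := Nat.le_mul_of_pos_left _ (by norm_num)
        omega
      have hfind := Nat.find_spec (⟨D, hD'⟩ : ∃ D, ¬ 160 * 27 ^ D ≤ n)
      set m := Nat.find (⟨D, hD'⟩ : ∃ D, ¬ 160 * 27 ^ D ≤ n) with hm
      have hm0 : m ≠ 0 := by
        intro h
        rw [h] at hfind
        exact hfind h0
      obtain ⟨d, hd⟩ := Nat.exists_eq_succ_of_ne_zero hm0
      refine ⟨d, ?_, ?_⟩
      · by_contra hcon
        have := Nat.find_min' (⟨D, hD'⟩ : ∃ D, ¬ 160 * 27 ^ D ≤ n) hcon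
        rw [← hm] at this
        omega
      · rw [hd] at hfind
        exact not_le.mp hfind
    obtain ⟨d, hd1, hd2⟩ := hex
    have h1 : (n : ℝ) ≤ 4320 * 27 ^ d := by
      have : (n : ℝ) < ((160 * 27 ^ (d + 1) : ℕ) : ℝ) := by exact_mod_cast hd2
      push_cast at this
      rw [pow_succ] at this
      linarith
    have h2 : (n : ℝ) ^ β ≤ 4320 ^ β * 162 ^ d := by
      calc (n : ℝ) ^ β ≤ (4320 * 27 ^ d) ^ β := Real.rpow_le_rpow (by positivity) h1 hnonneg
        _ = 4320 ^ β * 162 ^ d := by
          rw [Real.mul_rpow (by norm_num) (by positivity), ← Real.rpow_natCast 27 d,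
            ← Real.rpow_mul (by norm_num), mul_comm (d : ℝ) β, Real.rpow_mul (by norm_num),
            hpow, Real.rpow_natCast]
    have h3 : (4 * 162 ^ d : ℝ) ≤ XNL n := by exact_mod_cast XNL_ge d n hd1
    have h4 : (0 : ℝ) ≤ 162 ^ d := by positivity
    calc (n : ℝ) ^ β ≤ 4320 ^ β * 162 ^ d := h2
      _ ≤ (4 * 162 ^ d) * 4320 ^ β := by nlinarith
      _ ≤ XNL n * 4320 ^ β := mul_le_mul_of_nonneg_right h3 hK.le

end Pool.Agent.Results.MP_385527_co.SquaresExponent
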